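import Mathlib

/-!
# The online token colouring value of the 5-cycle with one chord

We show `f(4 q, C5plus) = 5 q` and `f(w, C5plus) / w → 5 / 4`.
-/

namespace Pool.Agent.Results.MP_f00a0c_co.HouseTokens

open Filter Topology

variable {V : Type*}

/-- The token graph of the sequence `σ` of the vertices on which the tokens are placed: tokens
are indexed by their position in `σ`; two tokens are adjacent iff they lie on the same vertex or
on adjacent vertices. -/
def tokenGraph (G : SimpleGraph V) (σ : List V) : SimpleGraph (Fin σ.length) where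
  Adj i j := i ≠ j ∧ (σ.get i = σ.get j ∨ G.Adj (σ.get i) (σ.get j))
  symm := by
    constructor
    rintro i j ⟨h1, h2⟩
    exact ⟨h1.symm, h2.imp Eq.symm (fun h => h.symm)⟩
  loopless := by
    constructor
    rintro i ⟨h1, _⟩
    exact h1 rfl

/-- Spoiler's play `σ` is legal at width `w`: the token graph is `w`-colourable. -/
def Legal (G : SimpleGraph V) (w : ℕ) (σ : List V) : Prop := (tokenGraph G σ).Colorable w

/-- A (deterministic) algorithm maps the nonempty history of placements, the last entry being the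
new token, to the colour of the new token; `colour A σ i` is the colour of the `i`-th token. -/
def colour (A : List V → ℕ) (σ : List V) (i : Fin σ.length) : ℕ := A (σ.take (i.val + 1))

/-- The algorithm `A` guarantees to use at most `k` colours at width `w`. -/
def Guarantees (G : SimpleGraph V) (w k : ℕ) (A : List V → ℕ) : Prop :=
  ∀ σ : List V, Legal G w σ →
    (∀ i j, (tokenGraph G σ).Adj i j → colour A σ i ≠ colour A σ j) ∧
    (Finset.univ.image (colour A σ)).card ≤ k

/-- `f(w, G)`. -/
noncomputable def f (w : ℕ) (G : SimpleGraph V) : ℕ :=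
  sInf {k | ∃ A : List V → ℕ, Guarantees G w k A}

/-- The 5-cycle `0 1 2 3 4` with the chord `0 2`. -/
def C5plus : SimpleGraph (Fin 5) := SimpleGraph.cycleGraph 5 ⊔ SimpleGraph.edge 0 2

/-! ### Counting tokens -/

lemma card_idx [DecidableEq V] (σ : List V) (v : V) :
    (Finset.univ.filter (fun i : Fin σ.length => σ.get i = v)).card = σ.count v := by
  induction σ with
  | nil => simp
  | cons a τ ih =>
    have h1 := Fin.card_filter_univ_succ (n := τ.length) (fun i => (a :: τ).get i = v)
    have h2 : (Finset.univ.filter (fun i : Fin τ.length => (a :: τ).get i.succ = v)).card =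
        τ.count v := by
      rw [← ih]; rfl
    refine h1.trans ?_
    rw [h2]
    by_cases h : a = v
    · subst h
      rw [if_pos (by rfl), List.count_cons_self]
    · rw [if_neg (by exact h), List.count_cons_of_ne h]

lemma clique_le [DecidableEq V] {G : SimpleGraph V} {w : ℕ} {σ : List V} (K : Finset V)
    (hK : ∀ u ∈ K, ∀ v ∈ K, u ≠ v → G.Adj u v) (h : Legal G w σ) :
    ∑ v ∈ K, σ.count v ≤ w := by
  obtain ⟨κ⟩ := h
  have h1 : ∑ v ∈ K, σ.count v =
      (Finset.univ.filter (fun i : Fin σ.length => σ.get i ∈ K)).card := by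
    rw [Finset.card_eq_sum_card_fiberwise (f := fun i : Fin σ.length => σ.get i) (t := K)]
    · apply Finset.sum_congr rfl
      intro v hv
      rw [← card_idx, Finset.filter_filter]
      congr 1
      ext i
      simp only [Finset.mem_filter, Finset.mem_univ, true_and]
      constructor
      · intro hi; exact ⟨hi ▸ hv, hi⟩
      · intro hi; exact hi.2
    · intro i hi
      simpa using hi
  rw [h1]
  have h2 : ((Finset.univ.filter (fun i : Fin σ.length => σ.get i ∈ K)).image κ).card =
      (Finset.univ.filter (fun i : Fin σ.length => σ.get i ∈ K)).card := by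
    apply Finset.card_image_of_injOn
    intro i hi j hj hij
    simp only [Finset.coe_filter, Finset.mem_univ, true_and, Set.mem_ofPred_eq] at hi hj
    by_contra hne
    have hadj : (tokenGraph G σ).Adj i j := by
      refine ⟨hne, ?_⟩
      by_cases he : σ.get i = σ.get j
      · exact Or.inl he
      · exact Or.inr (hK _ hi _ hj he)
    exact κ.valid hadj hij
  rw [← h2]
  calc _ ≤ Fintype.card (Fin w) := Finset.card_le_univ _
    _ = w := Fintype.card_fin w

/-! ### Algorithms from invariants -/

section FromInv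

variable (Inv : List (V × ℕ) → Prop)

open Classical in
/-- The colour chosen for a new token on `v`, given the coloured history `h`. -/
noncomputable def pick (h : List (V × ℕ)) (v : V) : ℕ :=
  if hh : ∃ c, Inv ((v, c) :: h) then hh.choose else 0

/-- The coloured history, most recent token first. -/
noncomputable def run : List V → List (V × ℕ)
  | [] => []
  | v :: ρ => (v, pick Inv (run ρ) v) :: run ρ

lemma run_map (ρ : List V) : (run Inv ρ).map Prod.fst = ρ := by
  induction ρ with
  | nil => rfl
  | cons v ρ ih => simp [run, ih]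

/-- The resulting algorithm. -/
noncomputable def alg (σ : List V) : ℕ := ((run Inv σ.reverse).head?.map Prod.snd).getD 0

lemma alg_append (τ : List V) (v : V) : alg Inv (τ ++ [v]) = pick Inv (run Inv τ.reverse) v := by
  simp [alg, run]

lemma run_getElem (σ : List V) : ∀ i, (hi : i < σ.length) →
    (run Inv σ.reverse).reverse[i]? = some (σ[i], alg Inv (σ.take (i + 1))) := by
  induction σ using List.reverseRecOn with
  | nil => intro i hi; simp at hi
  | append_singleton τ v ih =>
    intro i hi
    have hlen : (run Inv τ.reverse).reverse.length = τ.length := by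
      have := congrArg List.length (run_map Inv τ.reverse)
      simpa using this
    simp only [List.reverse_append, List.reverse_cons, List.reverse_nil, List.nil_append,
      List.singleton_append, run]
    rcases lt_or_ge i τ.length with hl | hl
    · rw [List.getElem?_append_left (by omega), ih i hl, List.getElem_append_left hl,
        List.take_append_of_le_length (by omega)]
    · have he : i = τ.length := by
        simp at hi; omega
      subst he
      rw [List.getElem?_append_right (by omega), hlen, Nat.sub_self]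
      have h1 : (τ ++ [v]).take (τ.length + 1) = τ ++ [v] := by
        apply List.take_of_length_le; simp
      rw [h1, alg_append]
      simp

end FromInv

lemma exists_alg {G : SimpleGraph V} {w k : ℕ} (Inv : List (V × ℕ) → Prop) (h0 : Inv [])
    (hs : ∀ h v, Inv h → Legal G w ((v :: h.map Prod.fst).reverse) → ∃ c, Inv ((v, c) :: h))
    (hp : ∀ h, Inv h → h.Pairwise (fun p p' => p.1 = p'.1 ∨ G.Adj p.1 p'.1 → p.2 ≠ p'.2) ∧
      ∀ p ∈ h, p.2 < k) : ∃ A, Guarantees G w k A := by
  classical
  have legal_prefix : ∀ (τ : List V) (v : V), Legal G w (τ ++ [v]) → Legal G w τ := by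
    rintro τ v ⟨κ⟩
    have hlen : τ.length ≤ (τ ++ [v]).length := by simp
    refine ⟨⟨fun i => κ (Fin.castLE hlen i), ?_⟩⟩
    intro i j hij
    apply κ.valid
    obtain ⟨h1, h2⟩ := hij
    refine ⟨fun he => h1 (Fin.castLE_injective hlen he), ?_⟩
    have e : ∀ i : Fin τ.length, (τ ++ [v]).get (Fin.castLE hlen i) = τ.get i := by
      intro i
      simp [List.getElem_append_left]
    rw [e, e]
    exact h2
  have hrun : ∀ σ : List V, Legal G w σ → Inv (run Inv σ.reverse) := by
    intro σ
    induction σ using List.reverseRecOn with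
    | nil => intro _; exact h0
    | append_singleton τ v ih =>
      intro hl
      have h1 := ih (legal_prefix τ v hl)
      have h2 : ∃ c, Inv ((v, c) :: run Inv τ.reverse) := by
        apply hs _ _ h1
        rw [run_map]
        simpa using hl
      simp only [List.reverse_append, List.reverse_cons, List.reverse_nil, List.nil_append,
        List.singleton_append, run]
      have h3 : pick Inv (run Inv τ.reverse) v = h2.choose := by
        unfold pick
        rw [dif_pos h2]
      rw [h3]
      exact h2.choose_spec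
  refine ⟨alg Inv, ?_⟩
  intro σ hσ
  obtain ⟨hpw, hlt⟩ := hp _ (hrun σ hσ)
  have hlen : (run Inv σ.reverse).reverse.length = σ.length := by
    have := congrArg List.length (run_map Inv σ.reverse)
    simpa using this
  have hget : ∀ i : Fin σ.length, (run Inv σ.reverse).reverse[i.val]'(by rw [hlen]; exact i.isLt)
      = (σ.get i, colour (alg Inv) σ i) := by
    intro i
    have h1 := run_getElem Inv σ i.val i.isLt
    rw [List.getElem?_eq_getElem (by rw [hlen]; exact i.isLt)] at h1
    exact Option.some.inj h1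
  have hpw' : (run Inv σ.reverse).reverse.Pairwise
      (fun p p' => p.1 = p'.1 ∨ G.Adj p.1 p'.1 → p.2 ≠ p'.2) := by
    rw [List.pairwise_reverse]
    refine hpw.imp ?_
    intro p p' hpp hh
    exact (hpp (hh.imp Eq.symm (fun h => h.symm))).symm
  have hord : ∀ i j : Fin σ.length, i < j → (tokenGraph G σ).Adj i j →
      colour (alg Inv) σ i ≠ colour (alg Inv) σ j := by
    intro i j hij hadj
    have := (List.pairwise_iff_getElem.1 hpw') i.val j.val (by rw [hlen]; exact i.isLt)
      (by rw [hlen]; exact j.isLt) hij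
    rw [hget i, hget j] at this
    exact this hadj.2
  constructor
  · intro i j hadj
    rcases lt_trichotomy i j with hl | hl | hl
    · exact hord i j hl hadj
    · exact absurd hl hadj.1
    · exact (hord j i hl hadj.symm).symm
  · have hsub : Finset.univ.image (colour (alg Inv) σ) ⊆ Finset.range k := by
      intro c hc
      rw [Finset.mem_image] at hc
      obtain ⟨i, _, rfl⟩ := hc
      rw [Finset.mem_range]
      have hm : (σ.get i, colour (alg Inv) σ i) ∈ (run Inv σ.reverse).reverse := by
        rw [← hget i]; exact List.getElem_mem _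
      rw [List.mem_reverse] at hm
      exact hlt _ hm
    calc _ ≤ (Finset.range k).card := Finset.card_le_card hsub
      _ = k := Finset.card_range k

/-! ### Realisations: the coloured history and the colours used on one vertex only -/

/-- `P v` is a set of colours that are used on `v` only; `n` colours are in use. -/
structure Real (G : SimpleGraph V) (h : List (V × ℕ)) (n : ℕ) (P : V → Finset ℕ) : Prop where
  proper : h.Pairwise (fun p p' => p.1 = p'.1 ∨ G.Adj p.1 p'.1 → p.2 ≠ p'.2)
  lt : ∀ p ∈ h, p.2 < n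
  un : ∀ u, ∀ c ∈ P u, c < n ∧ ∀ p ∈ h, p.2 = c → p.1 = u
  disj : ∀ u v c, c ∈ P u → c ∈ P v → u = v

lemma Real.new [DecidableEq V] {G : SimpleGraph V} {h : List (V × ℕ)} {n : ℕ} {P : V → Finset ℕ}
    (hR : Real G h n P) (v : V) :
    Real G ((v, n) :: h) (n + 1) (Function.update P v (insert n (P v))) := by
  constructor
  · rw [List.pairwise_cons]
    refine ⟨?_, hR.proper⟩
    intro p hp _
    have := hR.lt p hp
    simp only [ne_eq]
    omega
  · intro p hp
    rw [List.mem_cons] at hp
    rcases hp with rfl | hp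
    · simp
    · have := hR.lt p hp; omega
  · intro u c hc
    by_cases hu : u = v
    · subst hu
      rw [Function.update_self, Finset.mem_insert] at hc
      rcases hc with rfl | hc
      · refine ⟨by omega, ?_⟩
        intro p hp hpc
        rw [List.mem_cons] at hp
        rcases hp with rfl | hp
        · rfl
        · have := hR.lt p hp; omega
      · have h1 := hR.un u c hc
        refine ⟨by omega, ?_⟩
        intro p hp hpc
        rw [List.mem_cons] at hp
        rcases hp with rfl | hp
        · rfl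
        · exact h1.2 p hp hpc
    · rw [Function.update_of_ne hu] at hc
      have h1 := hR.un u c hc
      refine ⟨by omega, ?_⟩
      intro p hp hpc
      rw [List.mem_cons] at hp
      rcases hp with rfl | hp
      · simp only at hpc; omega
      · exact h1.2 p hp hpc
  · intro u u' c hc hc'
    by_cases hu : u = v
    · by_cases hu' : u' = v
      · rw [hu, hu']
      · subst hu
        rw [Function.update_self, Finset.mem_insert] at hc
        rw [Function.update_of_ne hu'] at hc'
        rcases hc with rfl | hc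
        · have := (hR.un u' _ hc').1; omega
        · exact hR.disj _ _ c hc hc'
    · rw [Function.update_of_ne hu] at hc
      by_cases hu' : u' = v
      · subst hu'
        rw [Function.update_self, Finset.mem_insert] at hc'
        rcases hc' with rfl | hc'
        · have := (hR.un u _ hc).1; omega
        · exact hR.disj _ _ c hc hc'
      · rw [Function.update_of_ne hu'] at hc'
        exact hR.disj _ _ c hc hc'

lemma Real.mat [DecidableEq V] {G : SimpleGraph V} {h : List (V × ℕ)} {n : ℕ} {P : V → Finset ℕ}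
    (hR : Real G h n P) {u v : V} {c : ℕ} (hc : c ∈ P u) (hne : u ≠ v) (hna : ¬ G.Adj v u) :
    Real G ((v, c) :: h) n (Function.update P u ((P u).erase c)) := by
  have hc1 := hR.un u c hc
  constructor
  · rw [List.pairwise_cons]
    refine ⟨?_, hR.proper⟩
    intro p hp hh he
    simp only at hh he
    have := hc1.2 p hp he.symm
    rw [this] at hh
    rcases hh with hh | hh
    · exact hne hh.symm
    · exact hna hh
  · intro p hp
    rw [List.mem_cons] at hp
    rcases hp with rfl | hp
    · exact hc1.1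
    · exact hR.lt p hp
  · intro x c' hc'
    have hx : c' ∈ P x ∧ c' ≠ c := by
      by_cases hxu : x = u
      · subst hxu
        rw [Function.update_self, Finset.mem_erase] at hc'
        exact ⟨hc'.2, hc'.1⟩
      · rw [Function.update_of_ne hxu] at hc'
        refine ⟨hc', ?_⟩
        rintro rfl
        exact hxu (hR.disj _ _ _ hc' hc)
    have h1 := hR.un x c' hx.1
    refine ⟨h1.1, ?_⟩
    intro p hp hpc
    rw [List.mem_cons] at hp
    rcases hp with rfl | hp
    · exact absurd hpc.symm hx.2
    · exact h1.2 p hp hpc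
  · intro x y c' hx hy
    have : ∀ z, c' ∈ Function.update P u ((P u).erase c) z → c' ∈ P z := by
      intro z hz
      by_cases hzu : z = u
      · subst hzu
        rw [Function.update_self, Finset.mem_erase] at hz
        exact hz.2
      · rwa [Function.update_of_ne hzu] at hz
    exact hR.disj _ _ c' (this x hx) (this y hy)

/-! ### The numerical invariant -/

/-- The numerical invariant.  The vertices are ordered along the complement path
`0 - 3 - 1 - 4 - 2`; `u1, ..., u5` are the numbers of the colours used on one vertex only and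
`m12, m23, m34, m45` the numbers of the colours used on two vertices. -/
def J (q u1 u2 u3 u4 u5 m12 m23 m34 m45 : ℕ) : Prop :=
  (u1 + m12) + (u3 + m23 + m34) + (u5 + m45) ≤ 4 * q ∧
  (u1 + m12) + (u4 + m34 + m45) ≤ 4 * q ∧
  (u2 + m12 + m23) + (u4 + m34 + m45) ≤ 4 * q ∧
  (u2 + m12 + m23) + (u5 + m45) ≤ 4 * q ∧
  m23 ≤ q + ((u2 + m12 + m23) + (u3 + m23 + m34) - 4 * q) ∧
  m34 ≤ q + ((u3 + m23 + m34) + (u4 + m34 + m45) - 4 * q) ∧
  (u1 = 0 ∨ u2 = 0) ∧ (u4 = 0 ∨ u5 = 0) ∧
  (u2 = 0 ∨ u3 = 0 ∨ q + ((u2 + m12 + m23) + (u3 + m23 + m34) - 4 * q) ≤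
    m23 + ((u3 + m23 + m34) - 2 * q)) ∧
  (u4 = 0 ∨ u3 = 0 ∨ q + ((u3 + m23 + m34) + (u4 + m34 + m45) - 4 * q) ≤
    m34 + ((u3 + m23 + m34) - 2 * q)) ∧
  (u2 = 0 ∨ u3 = 0 ∨ u4 = 0 ∨ 2 * q + ((u2 + m12 + m23) + (u3 + m23 + m34) - 4 * q) +
    ((u3 + m23 + m34) + (u4 + m34 + m45) - 4 * q) ≤ m23 + m34 + ((u3 + m23 + m34) - 2 * q))

lemma J_total {q u1 u2 u3 u4 u5 m12 m23 m34 m45 : ℕ} (h : J q u1 u2 u3 u4 u5 m12 m23 m34 m45) :
    u1 + u2 + u3 + u4 + u5 + m12 + m23 + m34 + m45 ≤ 5 * q := by
  unfold J at h
  omega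

lemma J_one {q u1 u2 u3 u4 u5 m12 m23 m34 m45 : ℕ} (h : J q u1 u2 u3 u4 u5 m12 m23 m34 m45)
    (h1 : (u1 + m12) + (u3 + m23 + m34) + (u5 + m45) + 1 ≤ 4 * q)
    (h2 : (u1 + m12) + (u4 + m34 + m45) + 1 ≤ 4 * q) :
    (u2 = 0 ∧ J q (u1 + 1) u2 u3 u4 u5 m12 m23 m34 m45) ∨
    (1 ≤ u2 ∧ J q u1 (u2 - 1) u3 u4 u5 (m12 + 1) m23 m34 m45) := by
  unfold J at *
  rcases Nat.eq_zero_or_pos u2 with hu | hu
  · left
    subst hu
    omega
  · right
    obtain ⟨v2, rfl⟩ : ∃ v2, u2 = v2 + 1 := ⟨u2 - 1, by omega⟩
    simp only [Nat.add_sub_cancel]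
    omega

lemma J_two {q u1 u2 u3 u4 u5 m12 m23 m34 m45 : ℕ} (h : J q u1 u2 u3 u4 u5 m12 m23 m34 m45)
    (h1 : (u2 + m12 + m23) + (u4 + m34 + m45) + 1 ≤ 4 * q)
    (h2 : (u2 + m12 + m23) + (u5 + m45) + 1 ≤ 4 * q) :
    (1 ≤ u1 ∧ J q (u1 - 1) u2 u3 u4 u5 (m12 + 1) m23 m34 m45) ∨
    (1 ≤ u3 ∧ J q u1 u2 (u3 - 1) u4 u5 m12 (m23 + 1) m34 m45) ∨
    J q u1 (u2 + 1) u3 u4 u5 m12 m23 m34 m45 := by
  unfold J at *
  rcases Nat.eq_zero_or_pos u1 with hu | hu
  · right
    subst hu
    by_cases hc : 1 ≤ u3 ∧ m23 + 1 ≤ q + ((u2 + 1 + m12 + m23) + (u3 + m23 + m34) - 4 * q)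
    · left
      obtain ⟨hu3, hc⟩ := hc
      obtain ⟨v3, rfl⟩ : ∃ v3, u3 = v3 + 1 := ⟨u3 - 1, by omega⟩
      simp only [Nat.add_sub_cancel]
      obtain ⟨k1, k2, k3, k4, k5, k6, k7, k8, k9, k10, k11⟩ := h
      exact ⟨by omega, by omega, by omega, by omega, by omega, by omega, by omega,
        Or.inl trivial, k8, by omega, by omega, by omega⟩
    · right
      omega
  · left
    obtain ⟨v1, rfl⟩ : ∃ v1, u1 = v1 + 1 := ⟨u1 - 1, by omega⟩
    simp only [Nat.add_sub_cancel]
    omega

lemma J_three {q u1 u2 u3 u4 u5 m12 m23 m34 m45 : ℕ} (h : J q u1 u2 u3 u4 u5 m12 m23 m34 m45)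
    (h1 : (u1 + m12) + (u3 + m23 + m34) + (u5 + m45) + 1 ≤ 4 * q) :
    (1 ≤ u2 ∧ J q u1 (u2 - 1) u3 u4 u5 m12 (m23 + 1) m34 m45) ∨
    (1 ≤ u4 ∧ J q u1 u2 u3 (u4 - 1) u5 m12 m23 (m34 + 1) m45) ∨
    J q u1 u2 (u3 + 1) u4 u5 m12 m23 m34 m45 := by
  unfold J at *
  by_cases hc : 1 ≤ u2 ∧ m23 + 1 ≤ q + ((u2 + m12 + m23) + (u3 + 1 + m23 + m34) - 4 * q)
  · left
    obtain ⟨hu2, hc⟩ := hc
    obtain ⟨v2, rfl⟩ : ∃ v2, u2 = v2 + 1 := ⟨u2 - 1, by omega⟩
    simp only [Nat.add_sub_cancel]
    omega
  · right
    by_cases hc' : 1 ≤ u4 ∧ m34 + 1 ≤ q + ((u3 + 1 + m23 + m34) + (u4 + m34 + m45) - 4 * q)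
    · left
      obtain ⟨hu4, hc'⟩ := hc'
      obtain ⟨v4, rfl⟩ : ∃ v4, u4 = v4 + 1 := ⟨u4 - 1, by omega⟩
      simp only [Nat.add_sub_cancel]
      omega
    · right
      omega

lemma J_symm {q u1 u2 u3 u4 u5 m12 m23 m34 m45 : ℕ} (h : J q u1 u2 u3 u4 u5 m12 m23 m34 m45) :
    J q u5 u4 u3 u2 u1 m45 m34 m23 m12 := by
  unfold J at *
  omega

/-! ### The upper bound -/

/-- Boolean adjacency table of `C5plus`. -/
def adjB (u v : Fin 5) : Bool :=
  (u, v) ∈ [((0 : Fin 5), (1 : Fin 5)), (1, 0), (1, 2), (2, 1), (2, 3), (3, 2), (3, 4), (4, 3),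
    (4, 0), (0, 4), (0, 2), (2, 0)]

lemma adj_iff : ∀ u v : Fin 5, C5plus.Adj u v ↔ adjB u v = true := by
  intro u v
  unfold C5plus
  rw [SimpleGraph.sup_adj, SimpleGraph.cycleGraph_adj, SimpleGraph.edge_adj]
  revert u v
  decide

/-- The invariant of the algorithm. -/
def Inv (q : ℕ) (h : List (Fin 5 × ℕ)) : Prop :=
  ∃ (n : ℕ) (P : Fin 5 → Finset ℕ) (m12 m23 m34 m45 : ℕ), Real C5plus h n P ∧
    (h.map Prod.fst).count 0 = (P 0).card + m12 ∧
    (h.map Prod.fst).count 3 = (P 3).card + m12 + m23 ∧
    (h.map Prod.fst).count 1 = (P 1).card + m23 + m34 ∧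
    (h.map Prod.fst).count 4 = (P 4).card + m34 + m45 ∧
    (h.map Prod.fst).count 2 = (P 2).card + m45 ∧
    n = (P 0).card + (P 3).card + (P 1).card + (P 4).card + (P 2).card + m12 + m23 + m34 + m45 ∧
    J q (P 0).card (P 3).card (P 1).card (P 4).card (P 2).card m12 m23 m34 m45

lemma inv_step (q : ℕ) (h : List (Fin 5 × ℕ)) (v : Fin 5) (hI : Inv q h)
    (hL : Legal C5plus (4 * q) ((v :: h.map Prod.fst).reverse)) : ∃ c, Inv q ((v, c) :: h) := by
  have c1 := clique_le {0, 1, 2} (by simp only [adj_iff]; decide) hL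
  have c2 := clique_le {0, 4} (by simp only [adj_iff]; decide) hL
  have c3 := clique_le {3, 4} (by simp only [adj_iff]; decide) hL
  have c4 := clique_le {3, 2} (by simp only [adj_iff]; decide) hL
  rw [Finset.sum_insert (by decide), Finset.sum_insert (by decide), Finset.sum_singleton] at c1
  rw [Finset.sum_insert (by decide), Finset.sum_singleton] at c2 c3 c4
  simp only [List.count_reverse, List.count_cons] at c1 c2 c3 c4
  obtain ⟨n, P, m12, m23, m34, m45, hR, l1, l2, l3, l4, l5, hn, hJ⟩ := hI
  have hnew : ∃ P' : Fin 5 → Finset ℕ, Real C5plus ((v, n) :: h) (n + 1) P' ∧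
      (P' v).card = (P v).card + 1 ∧ ∀ x, x ≠ v → (P' x).card = (P x).card := by
    refine ⟨_, hR.new v, ?_, ?_⟩
    · rw [Function.update_self]
      apply Finset.card_insert_of_notMem
      intro hm
      have := (hR.un v n hm).1
      omega
    · intro x hx
      rw [Function.update_of_ne hx]
  have hmat : ∀ u, 1 ≤ (P u).card → u ≠ v → adjB v u = false → ∃ (c : ℕ) (P' : Fin 5 → Finset ℕ),
      Real C5plus ((v, c) :: h) n P' ∧
      (P' u).card = (P u).card - 1 ∧ ∀ x, x ≠ u → (P' x).card = (P x).card := by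
    intro u hu hne hna
    obtain ⟨c, hc⟩ := Finset.card_pos.1 hu
    refine ⟨c, _, hR.mat hc hne ?_, ?_, ?_⟩
    · rw [adj_iff, hna]
      decide
    · rw [Function.update_self]
      exact Finset.card_erase_of_mem hc
    · intro x hx
      rw [Function.update_of_ne hx]
  rw [l1, l3, l5] at c1
  rw [l1, l4] at c2
  rw [l2, l4] at c3
  rw [l2, l5] at c4
  clear hL
  fin_cases v
  · dsimp only [Fin.isValue, Fin.zero_eta, Fin.mk_one, Fin.reduceFinMk] at c1 c2 c3 c4 hnew hmat ⊢
    simp at c1 c2 c3 c4
    rcases J_one hJ (by omega) (by omega) with ⟨h0, hJ'⟩ | ⟨h0, hJ'⟩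
    · obtain ⟨P', hR', e, e'⟩ := hnew
      have e1 := e' 1 (by decide)
      have e2 := e' 2 (by decide)
      have e3 := e' 3 (by decide)
      have e4 := e' 4 (by decide)
      refine ⟨n, n + 1, P', m12, m23, m34, m45, hR', ?_⟩
      simp only [List.map_cons, List.count_cons, e1, e2, e3, e4, e, l1, l2, l3, l4, l5]
      refine ⟨by simp; try omega, by simp; try omega, by simp; try omega, by simp; try omega, by simp; try omega, by omega, ?_⟩
      exact hJ'
    · obtain ⟨c, P', hR', e, e'⟩ := hmat 3 h0 (by decide) (by decide)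
      have e0 := e' 0 (by decide)
      have e1 := e' 1 (by decide)
      have e2 := e' 2 (by decide)
      have e4 := e' 4 (by decide)
      refine ⟨c, n, P', m12 + 1, m23, m34, m45, hR', ?_⟩
      simp only [List.map_cons, List.count_cons, e0, e1, e2, e4, e, l1, l2, l3, l4, l5]
      refine ⟨by simp; try omega, by simp; try omega, by simp; try omega, by simp; try omega, by simp; try omega, by omega, ?_⟩
      exact hJ'
  · dsimp only [Fin.isValue, Fin.zero_eta, Fin.mk_one, Fin.reduceFinMk] at c1 c2 c3 c4 hnew hmat ⊢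
    simp at c1 c2 c3 c4
    rcases J_three hJ (by omega) with ⟨h0, hJ'⟩ | ⟨h0, hJ'⟩ | hJ'
    · obtain ⟨c, P', hR', e, e'⟩ := hmat 3 h0 (by decide) (by decide)
      have e0 := e' 0 (by decide)
      have e1 := e' 1 (by decide)
      have e2 := e' 2 (by decide)
      have e4 := e' 4 (by decide)
      refine ⟨c, n, P', m12, m23 + 1, m34, m45, hR', ?_⟩
      simp only [List.map_cons, List.count_cons, e0, e1, e2, e4, e, l1, l2, l3, l4, l5]
      refine ⟨by simp; try omega, by simp; try omega, by simp; try omega, by simp; try omega, by simp; try omega, by omega, ?_⟩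
      exact hJ'
    · obtain ⟨c, P', hR', e, e'⟩ := hmat 4 h0 (by decide) (by decide)
      have e0 := e' 0 (by decide)
      have e1 := e' 1 (by decide)
      have e2 := e' 2 (by decide)
      have e3 := e' 3 (by decide)
      refine ⟨c, n, P', m12, m23, m34 + 1, m45, hR', ?_⟩
      simp only [List.map_cons, List.count_cons, e0, e1, e2, e3, e, l1, l2, l3, l4, l5]
      refine ⟨by simp; try omega, by simp; try omega, by simp; try omega, by simp; try omega, by simp; try omega, by omega, ?_⟩
      exact hJ'
    · obtain ⟨P', hR', e, e'⟩ := hnew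
      have e0 := e' 0 (by decide)
      have e2 := e' 2 (by decide)
      have e3 := e' 3 (by decide)
      have e4 := e' 4 (by decide)
      refine ⟨n, n + 1, P', m12, m23, m34, m45, hR', ?_⟩
      simp only [List.map_cons, List.count_cons, e0, e2, e3, e4, e, l1, l2, l3, l4, l5]
      refine ⟨by simp; try omega, by simp; try omega, by simp; try omega, by simp; try omega, by simp; try omega, by omega, ?_⟩
      exact hJ'
  · dsimp only [Fin.isValue, Fin.zero_eta, Fin.mk_one, Fin.reduceFinMk] at c1 c2 c3 c4 hnew hmat ⊢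
    simp at c1 c2 c3 c4
    rcases J_one (J_symm hJ) (by omega) (by omega) with ⟨h0, hJ'⟩ | ⟨h0, hJ'⟩
    · obtain ⟨P', hR', e, e'⟩ := hnew
      have e0 := e' 0 (by decide)
      have e1 := e' 1 (by decide)
      have e3 := e' 3 (by decide)
      have e4 := e' 4 (by decide)
      refine ⟨n, n + 1, P', m12, m23, m34, m45, hR', ?_⟩
      simp only [List.map_cons, List.count_cons, e0, e1, e3, e4, e, l1, l2, l3, l4, l5]
      refine ⟨by simp; try omega, by simp; try omega, by simp; try omega, by simp; try omega, by simp; try omega, by omega, ?_⟩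
      exact J_symm hJ'
    · obtain ⟨c, P', hR', e, e'⟩ := hmat 4 h0 (by decide) (by decide)
      have e0 := e' 0 (by decide)
      have e1 := e' 1 (by decide)
      have e2 := e' 2 (by decide)
      have e3 := e' 3 (by decide)
      refine ⟨c, n, P', m12, m23, m34, m45 + 1, hR', ?_⟩
      simp only [List.map_cons, List.count_cons, e0, e1, e2, e3, e, l1, l2, l3, l4, l5]
      refine ⟨by simp; try omega, by simp; try omega, by simp; try omega, by simp; try omega, by simp; try omega, by omega, ?_⟩
      exact J_symm hJ'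
  · dsimp only [Fin.isValue, Fin.zero_eta, Fin.mk_one, Fin.reduceFinMk] at c1 c2 c3 c4 hnew hmat ⊢
    simp at c1 c2 c3 c4
    rcases J_two hJ (by omega) (by omega) with ⟨h0, hJ'⟩ | ⟨h0, hJ'⟩ | hJ'
    · obtain ⟨c, P', hR', e, e'⟩ := hmat 0 h0 (by decide) (by decide)
      have e1 := e' 1 (by decide)
      have e2 := e' 2 (by decide)
      have e3 := e' 3 (by decide)
      have e4 := e' 4 (by decide)
      refine ⟨c, n, P', m12 + 1, m23, m34, m45, hR', ?_⟩
      simp only [List.map_cons, List.count_cons, e1, e2, e3, e4, e, l1, l2, l3, l4, l5]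
      refine ⟨by simp; try omega, by simp; try omega, by simp; try omega, by simp; try omega, by simp; try omega, by omega, ?_⟩
      exact hJ'
    · obtain ⟨c, P', hR', e, e'⟩ := hmat 1 h0 (by decide) (by decide)
      have e0 := e' 0 (by decide)
      have e2 := e' 2 (by decide)
      have e3 := e' 3 (by decide)
      have e4 := e' 4 (by decide)
      refine ⟨c, n, P', m12, m23 + 1, m34, m45, hR', ?_⟩
      simp only [List.map_cons, List.count_cons, e0, e2, e3, e4, e, l1, l2, l3, l4, l5]
      refine ⟨by simp; try omega, by simp; try omega, by simp; try omega, by simp; try omega, by simp; try omega, by omega, ?_⟩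
      exact hJ'
    · obtain ⟨P', hR', e, e'⟩ := hnew
      have e0 := e' 0 (by decide)
      have e1 := e' 1 (by decide)
      have e2 := e' 2 (by decide)
      have e4 := e' 4 (by decide)
      refine ⟨n, n + 1, P', m12, m23, m34, m45, hR', ?_⟩
      simp only [List.map_cons, List.count_cons, e0, e1, e2, e4, e, l1, l2, l3, l4, l5]
      refine ⟨by simp; try omega, by simp; try omega, by simp; try omega, by simp; try omega, by simp; try omega, by omega, ?_⟩
      exact hJ'
  · dsimp only [Fin.isValue, Fin.zero_eta, Fin.mk_one, Fin.reduceFinMk] at c1 c2 c3 c4 hnew hmat ⊢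
    simp at c1 c2 c3 c4
    rcases J_two (J_symm hJ) (by omega) (by omega) with ⟨h0, hJ'⟩ | ⟨h0, hJ'⟩ | hJ'
    · obtain ⟨c, P', hR', e, e'⟩ := hmat 2 h0 (by decide) (by decide)
      have e0 := e' 0 (by decide)
      have e1 := e' 1 (by decide)
      have e3 := e' 3 (by decide)
      have e4 := e' 4 (by decide)
      refine ⟨c, n, P', m12, m23, m34, m45 + 1, hR', ?_⟩
      simp only [List.map_cons, List.count_cons, e0, e1, e3, e4, e, l1, l2, l3, l4, l5]
      refine ⟨by simp; try omega, by simp; try omega, by simp; try omega, by simp; try omega, by simp; try omega, by omega, ?_⟩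
      exact J_symm hJ'
    · obtain ⟨c, P', hR', e, e'⟩ := hmat 1 h0 (by decide) (by decide)
      have e0 := e' 0 (by decide)
      have e2 := e' 2 (by decide)
      have e3 := e' 3 (by decide)
      have e4 := e' 4 (by decide)
      refine ⟨c, n, P', m12, m23, m34 + 1, m45, hR', ?_⟩
      simp only [List.map_cons, List.count_cons, e0, e2, e3, e4, e, l1, l2, l3, l4, l5]
      refine ⟨by simp; try omega, by simp; try omega, by simp; try omega, by simp; try omega, by simp; try omega, by omega, ?_⟩
      exact J_symm hJ'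
    · obtain ⟨P', hR', e, e'⟩ := hnew
      have e0 := e' 0 (by decide)
      have e1 := e' 1 (by decide)
      have e2 := e' 2 (by decide)
      have e3 := e' 3 (by decide)
      refine ⟨n, n + 1, P', m12, m23, m34, m45, hR', ?_⟩
      simp only [List.map_cons, List.count_cons, e0, e1, e2, e3, e, l1, l2, l3, l4, l5]
      refine ⟨by simp; try omega, by simp; try omega, by simp; try omega, by simp; try omega, by simp; try omega, by omega, ?_⟩
      exact J_symm hJ'

lemma upper (q : ℕ) : ∃ A, Guarantees C5plus (4 * q) (5 * q) A := by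
  apply exists_alg (Inv q)
  · refine ⟨0, fun _ => ∅, 0, 0, 0, 0, ?_, by simp, by simp, by simp, by simp, by simp, by simp, ?_⟩
    · constructor
      · exact List.Pairwise.nil
      · intro p hp; simp at hp
      · intro u c hc; simp at hc
      · intro u v c hc; simp at hc
    · unfold J
      simp
  · intro h v hI hL
    exact inv_step q h v hI hL
  · intro h hI
    obtain ⟨n, P, m12, m23, m34, m45, hR, l1, l2, l3, l4, l5, hn, hJ⟩ := hI
    refine ⟨hR.proper, ?_⟩
    intro p hp
    have h1 := hR.lt p hp
    have h2 := J_total hJ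
    omega

/-! ### The lower bound -/

/-- The play `g 0, g 1, ..., g (n - 1)`. -/
def play (g : ℕ → V) (n : ℕ) : List V := (List.range n).map g

lemma play_length (g : ℕ → V) (n : ℕ) : (play g n).length = n := by simp [play]

lemma play_get (g : ℕ → V) (n : ℕ) (i : Fin (play g n).length) : (play g n).get i = g i.val := by
  simp [play]

lemma play_take (g : ℕ → V) {n i : ℕ} (hi : i < n) : (play g n).take (i + 1) = play g (i + 1) := by
  unfold play
  rw [← List.map_take, List.take_range, min_eq_left (by omega)]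

lemma guar_play {G : SimpleGraph V} {w k n : ℕ} {A : List V → ℕ} (hA : Guarantees G w k A)
    (g : ℕ → V) (κ : ℕ → ℕ) (hκ : ∀ i < n, κ i < w)
    (hκ' : ∀ i < n, ∀ j < n, i < j → κ i = κ j → g i ≠ g j ∧ ¬ G.Adj (g i) (g j)) :
    (∀ i < n, ∀ j < n, i ≠ j → (g i = g j ∨ G.Adj (g i) (g j)) →
      A (play g (i + 1)) ≠ A (play g (j + 1))) ∧
    ((Finset.range n).image (fun i => A (play g (i + 1)))).card ≤ k := by
  have hn := play_length g n
  have hL : Legal G w (play g n) := by
    refine ⟨⟨fun i => ⟨κ i.val, hκ _ (by have := i.isLt; omega)⟩, ?_⟩⟩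
    intro i j hij he
    obtain ⟨h1, h2⟩ := hij
    rw [play_get, play_get] at h2
    simp only [Fin.mk.injEq] at he
    have hi := i.isLt
    have hj := j.isLt
    rcases lt_trichotomy i j with hl | hl | hl
    · have := hκ' i.val (by omega) j.val (by omega) hl he
      exact h2.elim this.1 this.2
    · exact h1 hl
    · have := hκ' j.val (by omega) i.val (by omega) hl he.symm
      exact h2.elim (fun h => this.1 h.symm) (fun h => this.2 h.symm)
  obtain ⟨h1, h2⟩ := hA _ hL
  constructor
  · intro i hi j hj hne hadj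
    have := h1 ⟨i, by omega⟩ ⟨j, by omega⟩ ⟨by simpa [Fin.ext_iff] using hne, by
      rw [play_get, play_get]; exact hadj⟩
    unfold colour at this
    simp only [play_take g hi, play_take g hj] at this
    exact this
  · have he : (Finset.range n).image (fun i => A (play g (i + 1))) =
        Finset.univ.image (colour A (play g n)) := by
      ext c
      simp only [Finset.mem_image, Finset.mem_range, Finset.mem_univ, true_and]
      constructor
      · rintro ⟨i, hi, rfl⟩
        refine ⟨⟨i, by omega⟩, ?_⟩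
        unfold colour
        simp only [play_take g hi]
      · rintro ⟨i, rfl⟩
        have hi : i.val < n := by have := i.isLt; omega
        refine ⟨i.val, hi, ?_⟩
        unfold colour
        simp only [play_take g hi]
    rw [he]
    exact h2

lemma play_congr {g g' : ℕ → V} {n : ℕ} (h : ∀ i < n, g i = g' i) : play g n = play g' n := by
  unfold play
  apply List.map_congr_left
  intro i hi
  exact h i (List.mem_range.1 hi)

open Finset in
lemma lower {t k : ℕ} {A : List (Fin 5) → ℕ} (hA : Guarantees C5plus (2 * t) k A) :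
    5 * t ≤ 2 * k := by
  set gA : ℕ → Fin 5 := fun i => if i < t then 3 else if i < 2 * t then 1 else
    if i < 3 * t then 0 else 4 with hgA
  set gB : ℕ → Fin 5 := fun i => if i < t then 3 else if i < 2 * t then 1 else 2 with hgB
  have hcA := guar_play (n := 4 * t) hA gA (fun i => if i < 2 * t then i else i - 2 * t)
    (by intro i hi; split_ifs <;> omega)
    (by
      intro i hi j hj hij he
      simp only [hgA, adj_iff] at he ⊢
      by_cases hi2 : i < 2 * t
      · by_cases hj2 : j < 2 * t
        · rw [if_pos hi2, if_pos hj2] at he; omega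
        · rw [if_pos hi2, if_neg hj2] at he
          by_cases hi1 : i < t
          · rw [if_pos hi1, if_neg (by omega), if_neg hj2, if_pos (by omega)]
            decide
          · rw [if_neg hi1, if_pos hi2, if_neg (by omega), if_neg hj2, if_neg (by omega)]
            decide
      · rw [if_neg hi2, if_neg (by omega)] at he; omega)
  have hcB := guar_play (n := 3 * t) hA gB
    (fun i => if i < t then i + t else if i < 2 * t then i else i - 2 * t)
    (by intro i hi; split_ifs <;> omega)
    (by
      intro i hi j hj hij he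
      simp only [hgB, adj_iff] at he ⊢
      by_cases hi1 : i < t
      · rw [if_pos hi1] at he
        by_cases hj1 : j < t
        · rw [if_pos hj1] at he; omega
        · rw [if_neg hj1] at he
          by_cases hj2 : j < 2 * t
          · rw [if_pos hi1, if_neg hj1, if_pos hj2]
            decide
          · rw [if_neg hj2] at he; omega
      · rw [if_neg hi1] at he
        by_cases hi2 : i < 2 * t
        · rw [if_pos hi2, if_neg (by omega)] at he
          by_cases hj2 : j < 2 * t
          · rw [if_pos hj2] at he; omega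
          · rw [if_neg hj2] at he; omega
        · rw [if_neg hi2, if_neg (by omega), if_neg (by omega)] at he; omega)
  set cA : ℕ → ℕ := fun i => A (play gA (i + 1)) with hcAdef
  set cB : ℕ → ℕ := fun i => A (play gB (i + 1)) with hcBdef
  have hagree : ∀ i < 2 * t, cA i = cB i := by
    intro i hi
    simp only [hcAdef, hcBdef]
    congr 1
    apply play_congr
    intro j hj
    simp only [hgA, hgB]
    by_cases h1 : j < t
    · rw [if_pos h1, if_pos h1]
    · rw [if_neg h1, if_neg h1, if_pos (by omega), if_pos (by omega)]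
  have vA3 : ∀ i, i < t → gA i = 3 := fun i h => by simp only [hgA]; rw [if_pos h]
  have vA1 : ∀ i, t ≤ i → i < 2 * t → gA i = 1 := fun i h h' => by
    simp only [hgA]; rw [if_neg (by omega), if_pos h']
  have vA0 : ∀ i, 2 * t ≤ i → i < 3 * t → gA i = 0 := fun i h h' => by
    simp only [hgA]; rw [if_neg (by omega), if_neg (by omega), if_pos h']
  have vA4 : ∀ i, 3 * t ≤ i → gA i = 4 := fun i h => by
    simp only [hgA]; rw [if_neg (by omega), if_neg (by omega), if_neg (by omega)]
  have vB3 : ∀ i, i < t → gB i = 3 := fun i h => by simp only [hgB]; rw [if_pos h]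
  have vB1 : ∀ i, t ≤ i → i < 2 * t → gB i = 1 := fun i h h' => by
    simp only [hgB]; rw [if_neg (by omega), if_pos h']
  have vB2 : ∀ i, 2 * t ≤ i → gB i = 2 := fun i h => by
    simp only [hgB]; rw [if_neg (by omega), if_neg (by omega)]
  set D : Finset ℕ := (Ico 0 t).image cA with hD
  set R : Finset ℕ := (Ico t (2 * t)).image cA with hR
  set Xa : Finset ℕ := (Ico (2 * t) (3 * t)).image cA with hXa
  set Xc : Finset ℕ := (Ico (3 * t) (4 * t)).image cA with hXc
  set Xb : Finset ℕ := (Ico (2 * t) (3 * t)).image cB with hXb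
  have cardA : ∀ a b, b ≤ 4 * t → (∀ i j, a ≤ i → i < b → a ≤ j → j < b → gA i = gA j) →
      ((Ico a b).image cA).card = b - a := by
    intro a b hb hh
    rw [card_image_of_injOn, Nat.card_Ico]
    intro i hi j hj hij
    simp only [coe_Ico, Set.mem_Ico] at hi hj
    by_contra hne
    exact hcA.1 i (by omega) j (by omega) hne (Or.inl (hh i j hi.1 hi.2 hj.1 hj.2)) hij
  have cD : D.card = t := by
    rw [hD, cardA 0 t (by omega) (fun i j _ hi _ hj => by rw [vA3 i hi, vA3 j hj])]; omega
  have cR : R.card = t := by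
    rw [hR, cardA t (2 * t) (by omega) (fun i j h1 h2 h3 h4 => by rw [vA1 i h1 h2, vA1 j h3 h4])]
    omega
  have cXa : Xa.card = t := by
    rw [hXa, cardA (2 * t) (3 * t) (by omega)
      (fun i j h1 h2 h3 h4 => by rw [vA0 i h1 h2, vA0 j h3 h4])]
    omega
  have cXc : Xc.card = t := by
    rw [hXc, cardA (3 * t) (4 * t) (by omega)
      (fun i j h1 h2 h3 h4 => by rw [vA4 i h1, vA4 j h3])]
    omega
  have cXb : Xb.card = t := by
    rw [hXb, card_image_of_injOn, Nat.card_Ico]
    · omega
    · intro i hi j hj hij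
      simp only [coe_Ico, Set.mem_Ico] at hi hj
      by_contra hne
      exact hcB.1 i (by omega) j (by omega) hne (Or.inl (by rw [vB2 i hi.1, vB2 j hj.1])) hij
  -- disjointness
  have d1 : Disjoint (D ∩ R) Xa := by
    rw [disjoint_left]
    intro c hc hc'
    simp only [hD, hR, hXa, mem_inter, mem_image, mem_Ico] at hc hc'
    obtain ⟨_, ⟨i, hi, rfl⟩⟩ := hc
    obtain ⟨j, hj, he⟩ := hc'
    refine hcA.1 j (by omega) i (by omega) (by omega) (Or.inr ?_) he
    rw [vA0 j hj.1 hj.2, vA1 i hi.1 hi.2, adj_iff]; decide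
  have d2 : Disjoint ((D ∩ R) ∪ Xa) Xc := by
    rw [disjoint_left]
    intro c hc hc'
    simp only [hD, hR, hXa, hXc, mem_union, mem_inter, mem_image, mem_Ico] at hc hc'
    obtain ⟨j, hj, he⟩ := hc'
    rcases hc with ⟨⟨i, hi, rfl⟩, _⟩ | ⟨i, hi, rfl⟩
    · refine hcA.1 j (by omega) i (by omega) (by omega) (Or.inr ?_) he
      rw [vA4 j hj.1, vA3 i hi.2, adj_iff]; decide
    · refine hcA.1 j (by omega) i (by omega) (by omega) (Or.inr ?_) he
      rw [vA4 j hj.1, vA0 i hi.1 hi.2, adj_iff]; decide
  have d3 : Disjoint (D ∪ R) Xb := by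
    rw [disjoint_left]
    intro c hc hc'
    simp only [hD, hR, hXb, mem_union, mem_image, mem_Ico] at hc hc'
    obtain ⟨j, hj, he⟩ := hc'
    rcases hc with ⟨i, hi, rfl⟩ | ⟨i, hi, rfl⟩
    · rw [hagree i (by omega)] at he
      refine hcB.1 j (by omega) i (by omega) (by omega) (Or.inr ?_) he
      rw [vB2 j hj.1, vB3 i hi.2, adj_iff]; decide
    · rw [hagree i (by omega)] at he
      refine hcB.1 j (by omega) i (by omega) (by omega) (Or.inr ?_) he
      rw [vB2 j hj.1, vB1 i hi.1 hi.2, adj_iff]; decide
  have s1 : ((D ∩ R) ∪ Xa) ∪ Xc ⊆ (range (4 * t)).image cA := by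
    intro c hc
    simp only [hD, hR, hXa, hXc, mem_union, mem_inter, mem_image, mem_Ico, mem_range] at hc ⊢
    rcases hc with (⟨⟨i, hi, rfl⟩, _⟩ | ⟨i, hi, rfl⟩) | ⟨i, hi, rfl⟩
    · exact ⟨i, by omega, rfl⟩
    · exact ⟨i, by omega, rfl⟩
    · exact ⟨i, by omega, rfl⟩
  have s2 : (D ∪ R) ∪ Xb ⊆ (range (3 * t)).image cB := by
    intro c hc
    simp only [hD, hR, hXb, mem_union, mem_image, mem_Ico, mem_range] at hc ⊢
    rcases hc with (⟨i, hi, rfl⟩ | ⟨i, hi, rfl⟩) | ⟨i, hi, rfl⟩
    · exact ⟨i, by omega, (hagree i (by omega)).symm⟩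
    · exact ⟨i, by omega, (hagree i (by omega)).symm⟩
    · exact ⟨i, by omega, rfl⟩
  have t1 := (card_le_card s1).trans hcA.2
  have t2 := (card_le_card s2).trans hcB.2
  rw [card_union_of_disjoint d2, card_union_of_disjoint d1] at t1
  rw [card_union_of_disjoint d3] at t2
  have t3 := card_union_add_card_inter D R
  omega

/-! ### The value -/

lemma guar_mono {G : SimpleGraph V} {w w' k : ℕ} {A : List V → ℕ} (hw : w ≤ w')
    (h : Guarantees G w' k A) : Guarantees G w k A := by
  intro σ hσ
  exact h σ (hσ.mono hw)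

lemma f_le {G : SimpleGraph V} {w w' k : ℕ} {A : List V → ℕ} (hw : w ≤ w')
    (h : Guarantees G w' k A) : f w G ≤ k :=
  Nat.sInf_le ⟨A, guar_mono hw h⟩

lemma f_upper (w : ℕ) : f w C5plus ≤ 5 * ((w + 3) / 4) := by
  obtain ⟨A, hA⟩ := upper ((w + 3) / 4)
  exact f_le (by omega) hA

lemma f_lower (w : ℕ) : 5 * (w / 2) ≤ 2 * f w C5plus := by
  have hne : {k | ∃ A : List (Fin 5) → ℕ, Guarantees C5plus w k A}.Nonempty := by
    obtain ⟨A, hA⟩ := upper ((w + 3) / 4)
    exact ⟨_, A, guar_mono (by omega) hA⟩
  obtain ⟨A, hA⟩ := Nat.sInf_mem hne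
  exact lower (guar_mono (by omega) hA)

lemma f_four (q : ℕ) : f (4 * q) C5plus = 5 * q := by
  have h1 := f_upper (4 * q)
  have h2 := f_lower (4 * q)
  have e1 : (4 * q + 3) / 4 = q := by omega
  have e2 : (4 * q) / 2 = 2 * q := by omega
  rw [e1] at h1
  rw [e2] at h2
  omega

/-- `f(w, C5plus) / w` tends to `5 / 4`; in fact `f(4 q, C5plus) = 5 q` for every `q`. -/
theorem result : (∀ q : ℕ, f (4 * q) C5plus = 5 * q) ∧
    Tendsto (fun w : ℕ => (f w C5plus : ℝ) / w) atTop (𝓝 (5 / 4)) := by
  refine ⟨f_four, ?_⟩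
  have hlo : Tendsto (fun w : ℕ => (5 / 4 : ℝ) - (5 / 4) / w) atTop (𝓝 (5 / 4)) := by
    have := (tendsto_const_div_atTop_nhds_zero_nat (5 / 4 : ℝ)).const_sub (5 / 4 : ℝ)
    simpa using this
  have hup : Tendsto (fun w : ℕ => (5 / 4 : ℝ) + (15 / 4) / w) atTop (𝓝 (5 / 4)) := by
    have := (tendsto_const_div_atTop_nhds_zero_nat (15 / 4 : ℝ)).const_add (5 / 4 : ℝ)
    simpa using this
  refine tendsto_of_tendsto_of_tendsto_of_le_of_le' hlo hup ?_ ?_
  · filter_upwards [eventually_gt_atTop 0] with w hw
    have hw' : (0 : ℝ) < w := by exact_mod_cast hw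
    have h1 : 5 * w ≤ 4 * f w C5plus + 5 := by
      have := f_lower w
      omega
    have h2 : (5 : ℝ) * w ≤ 4 * f w C5plus + 5 := by exact_mod_cast h1
    rw [le_div_iff₀ hw', sub_mul, div_mul_cancel₀ _ hw'.ne']
    linarith
  · filter_upwards [eventually_gt_atTop 0] with w hw
    have hw' : (0 : ℝ) < w := by exact_mod_cast hw
    have h1 : 4 * f w C5plus ≤ 5 * w + 15 := by
      have := f_upper w
      omega
    have h2 : (4 : ℝ) * f w C5plus ≤ 5 * w + 15 := by exact_mod_cast h1
    rw [div_le_iff₀ hw', add_mul, div_mul_cancel₀ _ hw'.ne']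
    linarith

end Pool.Agent.Results.MP_f00a0c_co.HouseTokens
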